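import Pool.Agent.H239.CS.Nullity

set_option autoImplicit false

/-!
# The normalised bracket is a product if the chords fall into two parts which do not cross
-/

namespace Pool.Agent.H239.CS

open Finset Function Pool.Agent.H832R2.JR LaurentPolynomial

variable {N : ℕ}

theorem eqn_add (G : GaussWord N) (s : Fin N → Bool) (a b : Fin N → ZMod 2) (c : Fin N) :
    eqn G s (a + b) c = eqn G s a c + eqn G s b c := by
  classical
  unfold eqn
  have e1 : ∑ i, (if Crosses G i c then (a + b) i else 0) =
      ∑ i, (if Crosses G i c then a i else 0) + ∑ i, (if Crosses G i c then b i else 0) := by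
    rw [← sum_add_distrib]
    refine sum_congr rfl fun i _ => ?_
    split_ifs <;> simp
  rw [e1, Pi.add_apply]
  split_ifs <;> ring

/-- the equation of `c` involves only the unknowns of the part of `c` -/
theorem eqn_congr (G : GaussWord N) (s s' : Fin N → Bool) (a b : Fin N → ZMod 2) (c : Fin N)
    (hs : s c = s' c) (h : a c = b c) (h' : ∀ i, Crosses G i c → a i = b i) :
    eqn G s a c = eqn G s' b c := by
  classical
  unfold eqn
  rw [hs, h]
  congr 1
  refine sum_congr rfl fun i _ => ?_
  split_ifs with hi
  · exact h' i hi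
  · rfl

theorem K_congr (G : GaussWord N) (R : Finset (Fin N)) (s s' : Fin N → Bool)
    (h : ∀ c ∈ R, s c = s' c) : K G R s = K G R s' := by
  ext z
  constructor
  · rintro ⟨h1, h2⟩
    refine ⟨h1, fun c hc => ?_⟩
    rw [← h2 c hc]
    exact (eqn_congr G s s' z z c (h c hc) rfl fun _ _ => rfl).symm
  · rintro ⟨h1, h2⟩
    refine ⟨h1, fun c hc => ?_⟩
    rw [← h2 c hc]
    exact eqn_congr G s s' z z c (h c hc) rfl fun _ _ => rfl

theorem nu_congr (G : GaussWord N) (R : Finset (Fin N)) (s s' : Fin N → Bool)
    (h : ∀ c ∈ R, s c = s' c) : nu G R s = nu G R s' := by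
  unfold nu
  rw [K_congr G R s s' h]

/-- the nullities of two parts which do not cross add up -/
theorem nu_add (G : GaussWord N) (A B : Finset (Fin N)) (hAB : Disjoint A B)
    (hc : ∀ i ∈ A, ∀ j ∈ B, ¬ Crosses G i j ∧ ¬ Crosses G j i) (s : Fin N → Bool) :
    nu G (A ∪ B) s = nu G A s + nu G B s := by
  classical
  have e : K G (A ∪ B) s ≃ K G A s × K G B s :=
    { toFun := fun z => (⟨fun c => if c ∈ A then z.1 c else 0, by
          intro c hc'
          exact if_neg hc', by
          intro c hcA
          refine Eq.trans (eqn_congr G s s _ z.1 c rfl (if_pos hcA) fun i hi => ?_)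
            (z.2.2 c (mem_union_left _ hcA))
          by_cases hiA : i ∈ A
          · rw [if_pos hiA]
          · rw [if_neg hiA]
            by_cases hiB : i ∈ B
            · exact absurd hi (hc c hcA i hiB).2
            · exact (z.2.1 i (by simp [hiA, hiB])).symm⟩,
        ⟨fun c => if c ∈ B then z.1 c else 0, by
          intro c hc'
          exact if_neg hc', by
          intro c hcB
          refine Eq.trans (eqn_congr G s s _ z.1 c rfl (if_pos hcB) fun i hi => ?_)
            (z.2.2 c (mem_union_right _ hcB))
          by_cases hiB : i ∈ B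
          · rw [if_pos hiB]
          · rw [if_neg hiB]
            by_cases hiA : i ∈ A
            · exact absurd hi (hc i hiA c hcB).1
            · exact (z.2.1 i (by simp [hiA, hiB])).symm⟩)
      invFun := fun z => ⟨z.1.1 + z.2.1, by
          intro c hc'
          rw [mem_union, not_or] at hc'
          rw [Pi.add_apply, z.1.2.1 c hc'.1, z.2.2.1 c hc'.2, add_zero], by
          intro c hc'
          rw [eqn_add]
          have h0 : eqn G s 0 c = 0 := by unfold eqn; simp
          by_cases hcA : c ∈ A
          · have hcB : c ∉ B := fun h => (disjoint_left.1 hAB) hcA h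
            have h1 := z.1.2.2 c hcA
            have h2 : eqn G s z.2.1 c = eqn G s 0 c := by
              refine eqn_congr G s s _ _ c rfl (z.2.2.1 c hcB) fun i hi => ?_
              refine z.2.2.1 i fun hiB => (hc c hcA i hiB).2 hi
            rw [h1, h2, zero_add, h0]
          · have hcB : c ∈ B := (mem_union.1 hc').resolve_left hcA
            have h1 := z.2.2.2 c hcB
            have h2 : eqn G s z.1.1 c = eqn G s 0 c := by
              refine eqn_congr G s s _ _ c rfl (z.1.2.1 c hcA) fun i hi => ?_
              refine z.1.2.1 i fun hiA => (hc i hiA c hcB).1 hi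
            rw [h1, h2, add_zero, h0]⟩
      left_inv := by
        rintro ⟨z, hz⟩
        apply Subtype.ext
        funext c
        simp only [Pi.add_apply]
        by_cases hcA : c ∈ A
        · have hcB : c ∉ B := fun h => (disjoint_left.1 hAB) hcA h
          simp [hcA, hcB]
        · by_cases hcB : c ∈ B
          · simp [hcA, hcB]
          · have := hz.1 c (by simp [hcA, hcB])
            simp [hcA, hcB, this]
      right_inv := by
        rintro ⟨⟨a, ha⟩, ⟨b, hb⟩⟩
        refine Prod.ext (Subtype.ext ?_) (Subtype.ext ?_)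
        · funext c
          simp only [Pi.add_apply]
          by_cases hcA : c ∈ A
          · have hcB : c ∉ B := fun h => (disjoint_left.1 hAB) hcA h
            rw [if_pos hcA, hb.1 c hcB, add_zero]
          · rw [if_neg hcA, ha.1 c hcA]
        · funext c
          simp only [Pi.add_apply]
          by_cases hcB : c ∈ B
          · have hcA : c ∉ A := fun h => (disjoint_left.1 hAB) h hcB
            rw [if_pos hcB, ha.1 c hcA, zero_add]
          · rw [if_neg hcB, hb.1 c hcB] }
  have h1 := Nat.card_congr e
  rw [Nat.card_prod, card_K, card_K, card_K, ← pow_add] at h1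
  exact Nat.pow_right_injective (le_refl 2) h1

/-- the factor of a crossing with sign `b` in the state sum of the normalised bracket; `σ`: the
smoothing -/
noncomputable def fac (b σ : Bool) : ℤ[T;T⁻¹] := -T (sgn b * sgn σ - 3 * sgn b)

/-- the part of the state sum which belongs to the crossings in `R` -/
noncomputable def pt (G : GaussWord N) (R : Finset (Fin N)) (w : Fin N → Bool) : ℤ[T;T⁻¹] :=
  ∑ s ∈ Fintype.piFinset (fun c => if c ∈ R then (univ : Finset Bool) else {true}),
    (∏ c ∈ R, fac (w c) (s c)) * (-T 2 - T (-2)) ^ nu G R s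

theorem T_sum {ι : Type*} (S : Finset ι) (e : ι → ℤ) :
    (T (∑ i ∈ S, e i) : ℤ[T;T⁻¹]) = ∏ i ∈ S, T (e i) := by
  classical
  induction S using Finset.induction_on with
  | empty => simp
  | insert a S ha ih => rw [sum_insert ha, prod_insert ha, T_add, ih]

theorem fPoly_eq (G : GaussWord N) (w : Fin N → Bool) : fPoly G w =
    ∑ s : Fin N → Bool, (∏ c, fac (w c) (s c)) * (-T 2 - T (-2)) ^ nu G univ s := by
  unfold fPoly bracket
  rw [mul_sum]
  refine sum_congr rfl fun s _ => ?_
  rw [nullity, ← mul_assoc]
  congr 1
  unfold fac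
  rw [prod_neg, card_univ, Fintype.card_fin, ← T_sum]
  have h1 : ∑ c, (sgn (w c) * sgn (s c) - 3 * sgn (w c)) = -3 * writhe w + weight w s := by
    unfold weight writhe
    rw [sum_sub_distrib, ← mul_sum]
    ring
  rw [h1, T_add, mul_assoc]
  congr 1
  by_cases h : Even (writhe w)
  · rw [if_pos h]
    have h2 := (writhe_parity w).1 h
    rw [Int.even_coe_nat] at h2
    rw [h2.neg_one_pow]
  · rw [if_neg h]
    have h2 : ¬ Even (N : ℤ) := fun h' => h ((writhe_parity w).2 h')
    rw [Int.even_coe_nat, Nat.not_even_iff_odd] at h2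
    rw [h2.neg_one_pow]

theorem mem_pi (R : Finset (Fin N)) (s : Fin N → Bool) :
    s ∈ Fintype.piFinset (fun c => if c ∈ R then (univ : Finset Bool) else {true}) ↔
      ∀ c, c ∉ R → s c = true := by
  rw [Fintype.mem_piFinset]
  refine forall_congr' fun c => ?_
  by_cases hc : c ∈ R <;> simp [hc]

theorem fPoly_pt (G : GaussWord N) (w : Fin N → Bool) : fPoly G w = pt G univ w := by
  rw [fPoly_eq]
  unfold pt
  refine (sum_subset (subset_univ _) fun s _ hs => ?_).symm
  exact absurd ((mem_pi univ s).2 fun c hc => absurd (mem_univ c) hc) hs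

/-- the part depends only on the signs of its crossings -/
theorem pt_congr (G : GaussWord N) (R : Finset (Fin N)) (w w' : Fin N → Bool)
    (h : ∀ c ∈ R, w c = w' c) : pt G R w = pt G R w' := by
  unfold pt
  refine sum_congr rfl fun x _ => ?_
  congr 1
  refine prod_congr rfl fun c hc => ?_
  rw [h c hc]

theorem pt_mul (G : GaussWord N) (A B : Finset (Fin N)) (hAB : Disjoint A B)
    (hc : ∀ i ∈ A, ∀ j ∈ B, ¬ Crosses G i j ∧ ¬ Crosses G j i) (w : Fin N → Bool) :
    pt G (A ∪ B) w = pt G A w * pt G B w := by
  classical
  unfold pt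
  rw [sum_mul_sum, ← sum_product']
  symm
  refine sum_bij' (fun x _ => fun c => if c ∈ A then x.1 c else x.2 c)
    (fun s _ => (fun c => if c ∈ A then s c else true, fun c => if c ∈ B then s c else true))
    ?_ ?_ ?_ ?_ ?_
  · rintro ⟨s, t⟩ h
    rw [mem_product, mem_pi, mem_pi] at h
    rw [mem_pi]
    intro c hc'
    rw [mem_union, not_or] at hc'
    simp only [hc'.1, if_false]
    exact h.2 c hc'.2
  · intro s h
    rw [mem_product, mem_pi, mem_pi]
    exact ⟨fun c hc' => if_neg hc', fun c hc' => if_neg hc'⟩
  · rintro ⟨s, t⟩ h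
    rw [mem_product, mem_pi, mem_pi] at h
    refine Prod.ext ?_ ?_ <;> funext c
    · by_cases hcA : c ∈ A
      · simp [hcA]
      · simp only [hcA, if_false]
        exact (h.1 c hcA).symm
    · by_cases hcB : c ∈ B
      · have hcA : c ∉ A := fun h => (disjoint_left.1 hAB) h hcB
        simp [hcA, hcB]
      · simp only [hcB, if_false]
        exact (h.2 c hcB).symm
  · intro s h
    rw [mem_pi] at h
    funext c
    by_cases hcA : c ∈ A
    · simp [hcA]
    · by_cases hcB : c ∈ B
      · simp [hcA, hcB]
      · simp only [hcA, hcB, if_false]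
        exact (h c (by simp [hcA, hcB])).symm
  · rintro ⟨s, t⟩ _
    simp only
    set r : Fin N → Bool := fun c => if c ∈ A then s c else t c with hr
    have rA : ∀ c ∈ A, r c = s c := fun c hc' => if_pos hc'
    have rB : ∀ c ∈ B, r c = t c := fun c hc' =>
      if_neg (fun h => (disjoint_left.1 hAB) h hc')
    rw [nu_add G A B hAB hc, pow_add, prod_union hAB, nu_congr G A r s rA, nu_congr G B r t rB,
      prod_congr rfl (fun c hc' => by rw [rA c hc'] : ∀ c ∈ A, fac (w c) (r c) = fac (w c) (s c)),
      prod_congr rfl (fun c hc' => by rw [rB c hc'] : ∀ c ∈ B, fac (w c) (r c) = fac (w c) (t c))]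
    ring

theorem fPoly_mul (G : GaussWord N) (p : Fin N → Prop) [DecidablePred p]
    (hp : ∀ i j, Crosses G i j → (p i ↔ p j)) (w : Fin N → Bool) :
    fPoly G w = pt G (univ.filter p) w * pt G (univ.filter fun c => ¬ p c) w := by
  rw [← pt_mul G _ _ (disjoint_filter_filter_not _ _ _), filter_union_filter_not_eq, fPoly_pt]
  intro i hi j hj
  rw [mem_filter] at hi hj
  exact ⟨fun h => hj.2 ((hp i j h).1 hi.2), fun h => hj.2 ((hp j i h).2 hi.2)⟩

/-- the product over several colours -/
theorem pt_prod (G : GaussWord N) (κ : Fin N → ℕ) (hκ : ∀ i j, Crosses G i j → κ i = κ j)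
    (C : Finset ℕ) (w : Fin N → Bool) :
    pt G (univ.filter fun c => κ c ∈ C) w = ∏ a ∈ C, pt G (univ.filter fun c => κ c = a) w := by
  induction C using Finset.induction_on with
  | empty =>
    unfold pt
    have h1 : (univ.filter fun c => κ c ∈ (∅ : Finset ℕ)) = ∅ := by simp
    rw [h1]
    have h2 : (Fintype.piFinset fun c : Fin N => if c ∈ (∅ : Finset (Fin N)) then
        (univ : Finset Bool) else {true}) = {fun _ => true} := by
      ext s
      rw [mem_pi, mem_singleton, funext_iff]
      simp
    rw [h2, sum_singleton]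
    have h3 : nu G ∅ (fun _ : Fin N => true) = 0 := by
      have h4 := card_K G ∅ (fun _ : Fin N => true)
      have h5 : Nat.card (K G ∅ (fun _ : Fin N => true)) = 1 := by
        rw [Nat.card_eq_one_iff_unique]
        refine ⟨⟨?_⟩, ⟨0⟩⟩
        rintro ⟨a, ha⟩ ⟨b, hb⟩
        apply Subtype.ext
        funext c
        exact (ha.1 c (by simp)).trans (hb.1 c (by simp)).symm
      rw [h5] at h4
      by_contra hcon
      have : 1 < 2 ^ nu G ∅ (fun _ : Fin N => true) := Nat.one_lt_two_pow hcon
      omega
    rw [h3]
    simp
  | insert a C ha ih =>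
    have h1 : (univ.filter fun c => κ c ∈ insert a C) =
        (univ.filter fun c => κ c = a) ∪ (univ.filter fun c => κ c ∈ C) := by
      ext c
      simp
    rw [h1, pt_mul, ih, prod_insert ha]
    · rw [disjoint_left]
      intro c hc hc'
      simp only [mem_filter, mem_univ, true_and] at hc hc'
      rw [hc] at hc'
      exact ha hc'
    · intro i hi j hj
      simp only [mem_filter, mem_univ, true_and] at hi hj
      refine ⟨fun h => ?_, fun h => ?_⟩
      · rw [← hκ i j h, hi] at hj
        exact ha hj
      · rw [hκ j i h, hi] at hj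
        exact ha hj

end Pool.Agent.H239.CS
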