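import Pool.Agent.H239.CS.Moments

set_option autoImplicit false

/-!
# Units of the ring of Laurent polynomials
-/

namespace Pool.Agent.H239.CS

open Finset Function Pool.Agent.H832R2.JR LaurentPolynomial

/-- the units are `± T n` -/
theorem unit_eq (f : ℤ[T;T⁻¹]) (hf : IsUnit f) : ∃ n : ℤ, f = T n ∨ f = -T n := by
  obtain ⟨g, hg⟩ := hf.exists_right_inv
  obtain ⟨n, f', hf'⟩ := LaurentPolynomial.exists_T_pow f
  obtain ⟨m, g', hg'⟩ := LaurentPolynomial.exists_T_pow g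
  have h1 : f' * g' = Polynomial.X ^ (n + m) := by
    apply Polynomial.toLaurent_injective
    rw [map_mul, hf', hg', Polynomial.toLaurent_X_pow]
    calc f * T (n : ℤ) * (g * T (m : ℤ)) = (f * g) * (T (n : ℤ) * T (m : ℤ)) := by ring
      _ = T ((n + m : ℕ) : ℤ) := by rw [hg, one_mul, ← T_add]; push_cast; rfl
  have h2 : f' ∣ (Polynomial.X : Polynomial ℤ) ^ (n + m) := ⟨g', h1.symm⟩
  obtain ⟨i, -, hi⟩ := (dvd_prime_pow Polynomial.prime_X (n + m)).1 h2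
  obtain ⟨u, hu⟩ := hi.symm
  have h3 : IsUnit (u : Polynomial ℤ) := u.isUnit
  rw [Polynomial.isUnit_iff] at h3
  obtain ⟨r, hr, hr'⟩ := h3
  have h4 : f = Polynomial.toLaurent f' * T (-(n : ℤ)) := by
    rw [hf', mul_assoc, ← T_add, add_neg_cancel, T_zero, mul_one]
  rw [Int.isUnit_iff] at hr
  refine ⟨(i : ℤ) - n, ?_⟩
  rw [h4, ← hu, ← hr', map_mul, Polynomial.toLaurent_X_pow]
  rcases hr with rfl | rfl
  · left
    simp only [map_one, mul_one]
    rw [← T_add]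
    rfl
  · right
    simp only [map_neg, map_one, mul_neg, mul_one, neg_mul]
    rw [← T_add]
    rfl

theorem row_T (f : ℤ[T;T⁻¹]) (k : ℤ) : rho (f * T k) 0 0 = rho f 0 0 ∧
    rho (f * T k) 0 1 = rho f 0 0 * k + rho f 0 1 := by
  rw [map_mul, rho_T]
  unfold mmat
  constructor <;> simp [Matrix.mul_apply, Fin.sum_univ_three]

/-- multiplication by a unit does not preserve the first two moments of a knot -/
theorem unit_rigid (f g u : ℤ[T;T⁻¹]) (hu : IsUnit u) (h : f * u = g)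
    (f0 : rho f 0 0 = 1) (f1 : rho f 0 1 = 0) (g0 : rho g 0 0 = 1) (g1 : rho g 0 1 = 0) :
    f = g := by
  obtain ⟨n, rfl | rfl⟩ := unit_eq u hu
  · have h1 := (row_T f n).2
    rw [h, f0, f1, g1] at h1
    have h2 : n = 0 := by linarith
    rw [← h, h2, T_zero, mul_one]
  · have h1 := (row_T f n).1
    have h2 : f * T n = -g := by rw [← h]; ring
    rw [h2, map_neg, Matrix.neg_apply, f0, g0] at h1
    norm_num at h1

theorem same_of_unit (f₁ f₂ g u₁ u₂ : ℤ[T;T⁻¹]) (hu₁ : IsUnit u₁) (hu₂ : IsUnit u₂)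
    (e₁ : f₁ = u₁ * g) (e₂ : f₂ = u₂ * g) (a0 : rho f₁ 0 0 = 1) (a1 : rho f₁ 0 1 = 0)
    (b0 : rho f₂ 0 0 = 1) (b1 : rho f₂ 0 1 = 0) : f₁ = f₂ := by
  obtain ⟨v₁, hv₁⟩ := hu₁.exists_right_inv
  have hv : IsUnit v₁ := IsUnit.of_mul_eq_one u₁ (by rw [mul_comm]; exact hv₁)
  refine unit_rigid f₁ f₂ (v₁ * u₂) (hv.mul hu₂) ?_ a0 a1 b0 b1
  rw [e₁, e₂]
  calc u₁ * g * (v₁ * u₂) = (u₁ * v₁) * (u₂ * g) := by ring
    _ = u₂ * g := by rw [hv₁, one_mul]

end Pool.Agent.H239.CS
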