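import Pool.Agent.H239.CS.Rel
import Pool.Agent.H239.CS.Unit
import Pool.Agent.H239.CS.Factor

set_option autoImplicit false

/-!
# The probability that the part of a class of crossings is a unit; independence of the classes
-/

namespace Pool.Agent.H239.CS

open Finset Function Pool.Agent.H832R2.JR LaurentPolynomial

variable {N : ℕ}

theorem matching_inj (G : GaussWord N) {m : ℕ} (u v : Fin m → Fin N) (h : IsMatching G u v) :
    Injective (Sum.elim u v) :=
  Injective.sumElim h.1 h.2.1 h.2.2.1

theorem adjm_ne (G : GaussWord N) (i j : Fin N) (h : Crosses G i j) : adjm G i j ≠ 0 := by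
  unfold adjm
  rw [if_pos h]
  exact one_ne_zero

/-- if the normalised bracket is constant on `P` then the second moment is constant -/
theorem P_card_le (G : GaussWord N) (i₀ : Fin N) (p : Fin N → Prop) [DecidablePred p]
    (w₀ : Fin N → Bool) (P : (Fin N → Bool) → Prop) [DecidablePred P]
    (hP : ∀ x y, P x → P y → fPoly G (mix p x w₀) = fPoly G (mix p y w₀)) :
    ∃ c, (univ.filter P).card ≤ (univ.filter fun x => Q (adjm G) (mix p x w₀) = c).card := by
  by_cases hne : ∃ x, P x
  · obtain ⟨x₀, hx₀⟩ := hne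
    refine ⟨Q (adjm G) (mix p x₀ w₀), card_le_card fun x hx => ?_⟩
    rw [mem_filter] at hx ⊢
    obtain ⟨K, hK⟩ := second_moment G i₀
    have e1 := hK (mix p x w₀)
    have e2 := hK (mix p x₀ w₀)
    rw [hP x x₀ hx.2 hx₀, e2] at e1
    exact ⟨mem_univ _, by linarith⟩
  · refine ⟨0, ?_⟩
    have h : (univ.filter P) = ∅ := by
      rw [filter_eq_empty_iff]
      intro x _ hx
      exact hne ⟨x, hx⟩
    rw [h, card_empty]
    exact Nat.zero_le _

theorem fixed_bound (G : GaussWord N) (p : Fin N → Prop) [DecidablePred p]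
    (w₀ : Fin N → Bool) {m : ℕ} (u v : Fin m → Fin N) (huv : IsMatching G u v)
    (hp : ∀ k, p (u k) ∧ p (v k)) (P : (Fin N → Bool) → Prop) [DecidablePred P]
    (hP : ∀ x y, P x → P y → fPoly G (mix p x w₀) = fPoly G (mix p y w₀)) :
    m * (univ.filter P).card ^ 4 ≤ 32 * (2 ^ N) ^ 4 := by
  rcases Nat.eq_zero_or_pos m with rfl | hm
  · rw [zero_mul]
    exact Nat.zero_le _
  · obtain ⟨c, hc⟩ := P_card_le G (u ⟨0, hm⟩) p w₀ P hP
    refine le_trans ?_ (qlo_rel (adjm G) (adjm_symm G) p w₀ u v (matching_inj G u v huv)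
      (fun k => adjm_ne G _ _ (huv.2.2.2 k)) hp c)
    gcongr

theorem fixed_quarter (G : GaussWord N) (p : Fin N → Prop) [DecidablePred p]
    (w₀ : Fin N → Bool) {i j : Fin N} (hij : Crosses G i j) (hi : p i) (hj : p j)
    (P : (Fin N → Bool) → Prop) [DecidablePred P]
    (hP : ∀ x y, P x → P y → fPoly G (mix p x w₀) = fPoly G (mix p y w₀)) :
    4 * (univ.filter P).card ≤ 3 * 2 ^ N := by
  obtain ⟨c, hc⟩ := P_card_le G i p w₀ P hP
  refine le_trans ?_ (quarter (adjm G) (adjm_symm G) p w₀ (?_ : i ≠ j) hi hj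
    (adjm_ne G _ _ hij) c)
  · gcongr
  · rintro rfl
    apply hij
    unfold Pool.Agent.H832R2.JR.Btw
    constructor <;> intro h <;> omega

theorem unit_const (G : GaussWord N) (i₀ : Fin N) (p : Fin N → Prop) [DecidablePred p]
    (hp : ∀ i j, Crosses G i j → (p i ↔ p j)) (w₀ x y : Fin N → Bool)
    (hx : IsUnit (pt G (univ.filter p) x)) (hy : IsUnit (pt G (univ.filter p) y)) :
    fPoly G (mix p x w₀) = fPoly G (mix p y w₀) := by
  have h1 : ∀ x, fPoly G (mix p x w₀) = pt G (univ.filter p) x * pt G (univ.filter fun c => ¬ p c) w₀ := by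
    intro x
    rw [fPoly_mul G p hp]
    congr 1
    · refine pt_congr G _ _ _ fun c hc => ?_
      unfold mix
      rw [if_pos (mem_filter.1 hc).2]
    · refine pt_congr G _ _ _ fun c hc => ?_
      unfold mix
      rw [if_neg (mem_filter.1 hc).2]
  exact same_of_unit _ _ _ _ _ hx hy (h1 x) (h1 y) (moment_zero G i₀ _) (moment_one G i₀ _)
    (moment_zero G i₀ _) (moment_one G i₀ _)

/-- the probability that two events depending on disjoint sets of signs happen -/
theorem indep (p : Fin N → Prop) [DecidablePred p] (P P' : (Fin N → Bool) → Prop)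
    [DecidablePred P] [DecidablePred P'] (hP : ∀ w w', (∀ c, p c → w c = w' c) → P w → P w')
    (hP' : ∀ w w', (∀ c, ¬ p c → w c = w' c) → P' w → P' w') :
    (univ.filter fun w => P w ∧ P' w).card * 2 ^ N =
      (univ.filter P).card * (univ.filter P').card := by
  have h1 : (univ : Finset (Fin N → Bool)).card = 2 ^ N := by simp
  rw [← h1, ← card_product, ← card_product]
  refine card_bij' (fun x _ => (mix p x.1 x.2, mix p x.2 x.1))
    (fun x _ => (mix p x.1 x.2, mix p x.2 x.1)) ?_ ?_ ?_ ?_
  · rintro ⟨v, w⟩ h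
    simp only [mem_product, mem_filter, mem_univ, true_and, and_true] at h ⊢
    exact ⟨hP v _ (fun c hc => by unfold mix; rw [if_pos hc]) h.1,
      hP' v _ (fun c hc => by unfold mix; rw [if_neg hc]) h.2⟩
  · rintro ⟨v, w⟩ h
    simp only [mem_product, mem_filter, mem_univ, true_and, and_true] at h ⊢
    exact ⟨hP v _ (fun c hc => by unfold mix; rw [if_pos hc]) h.1,
      hP' w _ (fun c hc => by unfold mix; rw [if_neg hc]) h.2⟩
  · rintro ⟨v, w⟩ _
    refine Prod.ext ?_ ?_ <;> funext c <;> by_cases hc : p c <;> simp [mix, hc]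
  · rintro ⟨v, w⟩ _
    refine Prod.ext ?_ ?_ <;> funext c <;> by_cases hc : p c <;> simp [mix, hc]

open Classical in
/-- the probability that all the parts of the colours in `S` are units -/
theorem all_units (G : GaussWord N) (κ : Fin N → ℕ) (β : ℕ → ℝ)
    (S : Finset ℕ) (hβ : ∀ a ∈ S, ((univ.filter fun w => IsUnit (pt G (univ.filter fun c => κ c = a) w)).card : ℝ) ≤
      β a * 2 ^ N) :
    ((univ.filter fun w => ∀ a ∈ S, IsUnit (pt G (univ.filter fun c => κ c = a) w)).card : ℝ) ≤
      2 ^ N * ∏ a ∈ S, β a := by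
  induction S using Finset.induction_on with
  | empty => simp
  | insert a S ha ih =>
    have ih' := ih fun b hb => hβ b (mem_insert_of_mem hb)
    have h1 := indep (fun c => κ c = a) (fun w => IsUnit (pt G (univ.filter fun c => κ c = a) w))
      (fun w => ∀ b ∈ S, IsUnit (pt G (univ.filter fun c => κ c = b) w)) (by
        intro w w' h h'
        rw [← pt_congr G _ w w' fun c hc => h c (mem_filter.1 hc).2]
        exact h') (by
        intro w w' h h' b hb
        rw [← pt_congr G _ w w' fun c hc => h c ?_]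
        · exact h' b hb
        · intro e
          have hc2 := (mem_filter.1 hc).2
          rw [e] at hc2
          exact ha (hc2 ▸ hb))
    have h2 : (univ.filter fun w => ∀ b ∈ insert a S, IsUnit (pt G (univ.filter fun c => κ c = b) w)) =
        (univ.filter fun w => IsUnit (pt G (univ.filter fun c => κ c = a) w) ∧
          ∀ b ∈ S, IsUnit (pt G (univ.filter fun c => κ c = b) w)) := by
      refine filter_congr fun w _ => ?_
      rw [forall_mem_insert]
    rw [h2, prod_insert ha]
    have h3 : ((univ.filter fun w => IsUnit (pt G (univ.filter fun c => κ c = a) w) ∧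
          ∀ b ∈ S, IsUnit (pt G (univ.filter fun c => κ c = b) w)).card : ℝ) * 2 ^ N =
        ((univ.filter fun w => IsUnit (pt G (univ.filter fun c => κ c = a) w)).card : ℝ) *
        ((univ.filter fun w => ∀ b ∈ S, IsUnit (pt G (univ.filter fun c => κ c = b) w)).card : ℝ) := by
      exact_mod_cast h1
    have h4 : (0 : ℝ) < 2 ^ N := by positivity
    refine le_of_mul_le_mul_right ?_ h4
    rw [h3]
    have h5 := hβ a (mem_insert_self a S)
    calc _ ≤ (β a * 2 ^ N) * (2 ^ N * ∏ a ∈ S, β a) :=
          mul_le_mul h5 ih' (Nat.cast_nonneg _) ((Nat.cast_nonneg _).trans h5)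
      _ = _ := by ring

end Pool.Agent.H239.CS
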