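import Pool.Agent.H239.CS.Span
import Pool.Agent.H832R2.JR.Classes
import Pool.Agent.W642.RV.Vas

set_option autoImplicit false

/-!
# The final estimates
-/

namespace Pool.Agent.H239.CS

open Finset Function Pool.Agent.H832R2.JR LaurentPolynomial

variable {N : ℕ}

theorem root_bound {m c : ℕ} {M : ℝ} (hM : 0 ≤ M) (h : (m : ℝ) * (c : ℝ) ^ 4 ≤ 32 * M ^ 4) :
    (c : ℝ) * (m : ℝ) ^ (1 / 4 : ℝ) ≤ (32 : ℝ) ^ (1 / 4 : ℝ) * M := by
  rcases Nat.eq_zero_or_pos m with rfl | hm
  · rw [Nat.cast_zero, Real.zero_rpow (by norm_num), mul_zero]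
    positivity
  · rw [mul_comm]
    exact Pool.Agent.W642.RV.root_le (by exact_mod_cast hm) (by norm_num) hM (Nat.cast_nonneg _) h

/-- the bound for a class of crossings containing `m` disjoint pairs of crossing chords -/
noncomputable def beta (m : ℕ) : ℝ := min (3 / 4) ((32 / (m : ℝ)) ^ (1 / 4 : ℝ))

open Classical in
theorem beta_bound (G : GaussWord N) (p : Fin N → Prop) [DecidablePred p]
    (hp : ∀ i j, Crosses G i j → (p i ↔ p j)) {m : ℕ} (hm : 1 ≤ m) (u v : Fin m → Fin N)
    (huv : IsMatching G u v) (hpuv : ∀ k, p (u k) ∧ p (v k)) :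
    ((univ.filter fun w => IsUnit (pt G (univ.filter p) w)).card : ℝ) ≤ beta m * 2 ^ N := by
  set P : (Fin N → Bool) → Prop := fun w => IsUnit (pt G (univ.filter p) w) with hP
  have hconst : ∀ x y, P x → P y →
      fPoly G (mix p x fun _ => true) = fPoly G (mix p y fun _ => true) := fun x y hx hy =>
    unit_const G (u ⟨0, hm⟩) p hp _ x y hx hy
  have h1 := fixed_bound G p (fun _ => true) u v huv hpuv P hconst
  have h2 := fixed_quarter G p (fun _ => true) (huv.2.2.2 ⟨0, hm⟩) (hpuv _).1 (hpuv _).2 P hconst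
  unfold beta
  rw [min_mul_of_nonneg _ _ (by positivity)]
  refine le_min ?_ ?_
  · have h3 : (4 : ℝ) * ((univ.filter P).card : ℝ) ≤ 3 * 2 ^ N := by exact_mod_cast h2
    linarith
  · have h3 : (m : ℝ) * ((univ.filter P).card : ℝ) ^ 4 ≤ 32 * (2 ^ N) ^ 4 := by exact_mod_cast h1
    have h4 := root_bound (by positivity) h3
    have hm0 : (0 : ℝ) < (m : ℝ) := by exact_mod_cast hm
    rw [Real.div_rpow (by norm_num) hm0.le, div_mul_eq_mul_div, le_div_iff₀ (by positivity)]
    exact h4

open Classical in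
/-- the number of choices of the crossings for which the width is at most `s` -/
theorem width_bound (G : GaussWord N) (κ : Fin N → ℕ)
    (hκ : ∀ i j, Crosses G i j → κ i = κ j) (C : Finset ℕ) (μ : ℕ → ℕ)
    (hμ : ∀ a ∈ C, 1 ≤ μ a ∧ ∃ u v : Fin (μ a) → Fin N, IsMatching G u v ∧
      ∀ k, κ (u k) = a ∧ κ (v k) = a) (s : ℕ) :
    ((univ.filter fun w => Width s (fPoly G w)).card : ℝ) ≤
      2 ^ N * ∑ S ∈ C.powerset.filter (fun S => S.card ≤ s), ∏ a ∈ C \ S, beta (μ a) := by
  have hβ : ∀ a ∈ C, ((univ.filter fun w => IsUnit (pt G (univ.filter fun c => κ c = a) w)).card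
      : ℝ) ≤ beta (μ a) * 2 ^ N := by
    intro a ha
    obtain ⟨h1, u, v, huv, hk⟩ := hμ a ha
    exact beta_bound G (fun c => κ c = a) (fun i j hij => by rw [hκ i j hij]) h1 u v huv hk
  rcases C.eq_empty_or_nonempty with rfl | ⟨a₀, ha₀⟩
  · have h1 : ((univ.filter fun w => Width s (fPoly G w)).card : ℝ) ≤ 2 ^ N := by
      have h2 : (univ.filter fun w => Width s (fPoly G w)).card ≤
          (univ : Finset (Fin N → Bool)).card := card_le_card (subset_univ _)
      have h3 : (univ : Finset (Fin N → Bool)).card = 2 ^ N := by simp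
      rw [h3] at h2
      exact_mod_cast h2
    refine h1.trans ?_
    have h4 : ((∅ : Finset ℕ).powerset.filter (fun S => S.card ≤ s)) = {∅} := by
      ext S
      simp only [powerset_empty, mem_filter, mem_singleton]
      constructor
      · exact fun h => h.1
      · rintro rfl
        simp
    rw [h4, sum_singleton]
    simp
  obtain ⟨i₀, -⟩ : ∃ i : Fin N, True := by
    obtain ⟨h1, u, -, -⟩ := hμ a₀ ha₀
    exact ⟨u ⟨0, h1⟩, trivial⟩
  have hsub : (univ.filter fun w => Width s (fPoly G w)) ⊆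
      (C.powerset.filter (fun S => S.card ≤ s)).biUnion fun S =>
        univ.filter fun w => ∀ a ∈ C \ S, IsUnit (pt G (univ.filter fun c => κ c = a) w) := by
    intro w hw
    rw [mem_filter] at hw
    rw [mem_biUnion]
    refine ⟨C.filter fun a => ¬ IsUnit (pt G (univ.filter fun c => κ c = a) w), ?_, ?_⟩
    · rw [mem_filter, mem_powerset]
      refine ⟨filter_subset _ _, ?_⟩
      refine nonunits_le C (fun a => pt G (univ.filter fun c => κ c = a) w) (fPoly G w)
        (pt G (univ.filter fun c => ¬ κ c ∈ C) w) s ?_ (moment_zero G i₀ w) hw.2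
      rw [← pt_prod G κ hκ C w]
      exact fPoly_mul G (fun c => κ c ∈ C) (fun i j hij => by rw [hκ i j hij]) w
    · rw [mem_filter]
      refine ⟨mem_univ _, fun a ha => ?_⟩
      rw [mem_sdiff, mem_filter, not_and, not_not] at ha
      exact ha.2 ha.1
  have h2 := (card_le_card hsub).trans card_biUnion_le
  have h3 : ((univ.filter fun w => Width s (fPoly G w)).card : ℝ) ≤
      ∑ S ∈ C.powerset.filter (fun S => S.card ≤ s), ((univ.filter fun w => ∀ a ∈ C \ S,
        IsUnit (pt G (univ.filter fun c => κ c = a) w)).card : ℝ) := by exact_mod_cast h2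
  refine h3.trans ?_
  rw [mul_sum]
  refine sum_le_sum fun S _ => ?_
  exact all_units G κ (fun a => beta (μ a)) (C \ S) fun a ha => hβ a (mem_sdiff.1 ha).1

end Pool.Agent.H239.CS
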