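import Pool.Agent.H832R2.JR.Moment

set_option autoImplicit false

/-!
# The moments of order zero and one of the normalised bracket of a knot
-/

namespace Pool.Agent.H239.CS

open Finset Function Pool.Agent.H832R2.JR LaurentPolynomial

variable {N : ℕ}

theorem to_Z (G : GaussWord N) (g : Fin N → Bool → ℤ) :
    ∑ s : Fin N → Bool, (∏ c, g c (s c)) * (-2) ^ loops G s =
      Z G (fun c k => if k = 0 then 0 else if k = 1 then g c true else g c false) := by
  unfold Z
  refine Fintype.sum_of_injective tri ?_ _ _ ?_ ?_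
  · intro s s' h
    funext c
    have h1 := congrFun h c
    unfold tri at h1
    cases hs : s c <;> cases hs' : s' c <;> simp_all
  · intro t ht
    have : ∃ c, t c = 0 := by
      by_contra hcon
      push Not at hcon
      apply ht
      refine ⟨fun c => decide (t c = 1), ?_⟩
      funext c
      have := hcon c
      unfold tri
      by_cases h1 : t c = 1
      · simp [h1]
      · simp only [h1, decide_false, Bool.false_eq_true, if_false]
        omega
    obtain ⟨c, hc⟩ := this
    rw [prod_eq_zero (mem_univ c), zero_mul]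
    simp [hc]
  · intro s
    rw [loops_eq]
    congr 1
    refine prod_congr rfl fun c _ => ?_
    unfold tri
    cases hs : s c <;> simp

theorem sum_zero (G : GaussWord N) (i : Fin N) :
    ∑ s : Fin N → Bool, (-2 : ℤ) ^ loops G s = (-1) ^ N * (-2) := by
  have h1 := to_Z G (fun _ _ => 1)
  simp only [prod_const_one, one_mul] at h1
  rw [h1, Z_shift_all G _ 1]
  have h2 : (fun (_ : Fin N) (k : Fin 3) => (if k = 0 then (0 : ℤ) else if k = 1 then 1 else 1) - 1) =
      fun (c : Fin N) (k : Fin 3) => if k = (fun _ : Fin N => (0 : Fin 3)) c then -1 else 0 := by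
    funext c k
    fin_cases k <;> simp
  rw [h2, Z_delta, L_zero G i, pow_one]

theorem sum_one (G : GaussWord N) (i : Fin N) :
    ∑ s : Fin N → Bool, (-2 : ℤ) ^ loops G s * gval s i = 0 := by
  have h1 := to_Z G (fun c b => if c = i then (if b then 1 else 2) else 1)
  have h2 : ∀ s : Fin N → Bool, ∏ c, (if c = i then (if s c then (1 : ℤ) else 2) else 1) =
      gval s i := by
    intro s
    rw [prod_ite_eq']
    simp [gval]
  simp only [h2] at h1
  rw [sum_congr rfl (fun s _ => mul_comm _ _), h1, Z_shift_all G _ 1]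
  set D : (Fin N → Fin 3) → Fin N → Fin 3 → ℤ := fun t c k => if k = t c then -1 else 0 with hD
  set d : Fin 3 → Fin 3 → ℤ := fun m k => if k = m then -1 else 0 with hd
  have hDu : ∀ t c m, update (D t) c (d m) = D (update t c m) := fun t c m => Z_delta_upd G t c m
  have hZ : ∀ t, Z G (D t) = (-1) ^ N * (-2) ^ L G t := Z_delta G
  have h3 : Z G (update (D (fun _ => 0)) i (fun k => d 0 k - d 2 k)) = 0 := by
    have u0 : update (fun _ : Fin N => (0 : Fin 3)) i 0 = fun _ => 0 := update_eq_self_iff.2 rfl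
    rw [Z_sub, hDu, hDu, hZ, hZ, u0, L_zero G i, L_one G i]
    ring
  refine Eq.trans ?_ h3
  congr 1
  funext c k
  by_cases hci : c = i
  · subst hci
    simp only [update_self, hd]
    fin_cases k <;> simp
  · simp only [update_of_ne hci, hD]
    fin_cases k <;> simp [hci]

theorem eps_eq (w : Fin N → Bool) : (if Even (writhe w) then (1 : ℤ) else -1) = (-1) ^ N := by
  by_cases h : Even (writhe w)
  · rw [if_pos h]
    have h2 := (writhe_parity w).1 h
    rw [Int.even_coe_nat] at h2
    rw [h2.neg_one_pow]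
  · rw [if_neg h]
    have h2 : ¬ Even (N : ℤ) := fun h' => h ((writhe_parity w).2 h')
    rw [Int.even_coe_nat, Nat.not_even_iff_odd] at h2
    rw [h2.neg_one_pow]

theorem rho_entry (G : GaussWord N) (w : Fin N → Bool) (j : Fin 3) (g : ℤ → ℤ → ℤ)
    (hg : ∀ (k : ℤ) (l : ℕ), (rho (T k) * rho ((-T 2 - T (-2)) ^ l)) 0 j = g k l) :
    rho (fPoly G w) 0 j = (-1) ^ N *
      ∑ s : Fin N → Bool, g (weight w s - 3 * writhe w) ((loops G s - 1 : ℕ) : ℤ) := by
  have h1 : ∀ s : Fin N → Bool, (rho (T (-3 * writhe w)) *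
      rho (T (weight w s) * (-T 2 - T (-2)) ^ (loops G s - 1))) 0 j =
      g (weight w s - 3 * writhe w) ((loops G s - 1 : ℕ) : ℤ) := by
    intro s
    rw [← hg, map_mul, ← mul_assoc, ← map_mul rho (T (-3 * writhe w)), ← T_add,
      show -3 * writhe w + weight w s = weight w s - 3 * writhe w by ring]
  have h2 : (rho (T (-3 * writhe w) * bracket G w)) 0 j = ∑ s : Fin N → Bool,
      g (weight w s - 3 * writhe w) ((loops G s - 1 : ℕ) : ℤ) := by
    unfold bracket
    rw [map_mul, map_sum, Finset.mul_sum, Matrix.sum_apply]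
    exact sum_congr rfl fun s _ => h1 s
  rw [← eps_eq w]
  unfold fPoly
  split_ifs with h
  · rw [one_mul, one_mul]
    exact h2
  · have h3 : (-1 : ℤ[T;T⁻¹]) * T (-3 * writhe w) * bracket G w =
        -(T (-3 * writhe w) * bracket G w) := by ring
    rw [h3, map_neg, Matrix.neg_apply, h2, neg_one_mul]

theorem moment_zero (G : GaussWord N) (i₀ : Fin N) (w : Fin N → Bool) :
    rho (fPoly G w) 0 0 = 1 := by
  have hL : ∀ s, 1 ≤ loops G s := fun s => by rw [loops_eq]; exact one_le_L G _ i₀
  have h := rho_entry G w 0 (fun _ l => (-2) ^ l.toNat) (by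
    intro k l
    rw [rho_T, rho_d]
    unfold mmat
    simp [Matrix.mul_apply, Fin.sum_univ_three])
  have h2 := sum_zero G i₀
  have h3 : ∑ s : Fin N → Bool, (-2 : ℤ) ^ loops G s =
      -2 * ∑ s : Fin N → Bool, (-2 : ℤ) ^ ((loops G s - 1 : ℕ) : ℤ).toNat := by
    rw [mul_sum]
    refine sum_congr rfl fun s _ => ?_
    obtain ⟨l, hl⟩ : ∃ l, loops G s = l + 1 := ⟨loops G s - 1, by have := hL s; omega⟩
    rw [hl, Nat.add_sub_cancel, Int.toNat_natCast, pow_succ]
    ring
  have h4 : ((-1 : ℤ) ^ N) * (-1) ^ N = 1 := by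
    rw [← pow_add, ← two_mul, pow_mul]; norm_num
  have h5 : ∑ s : Fin N → Bool, (-2 : ℤ) ^ ((loops G s - 1 : ℕ) : ℤ).toNat = (-1) ^ N := by
    linarith
  rw [h, h5, h4]

theorem moment_one (G : GaussWord N) (i₀ : Fin N) (w : Fin N → Bool) :
    rho (fPoly G w) 0 1 = 0 := by
  have hL : ∀ s, 1 ≤ loops G s := fun s => by rw [loops_eq]; exact one_le_L G _ i₀
  have h := rho_entry G w 1 (fun k l => (-2) ^ l.toNat * k) (by
    intro k l
    rw [rho_T, rho_d]
    unfold mmat
    simp [Matrix.mul_apply, Fin.sum_univ_three]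
    ring)
  have h3 : ∑ s : Fin N → Bool, ((-2 : ℤ) ^ ((loops G s - 1 : ℕ) : ℤ).toNat *
      (weight w s - 3 * writhe w)) = ∑ c, sgn (w c) *
        ∑ s : Fin N → Bool, (-2 : ℤ) ^ loops G s * gval s c := by
    simp only [mul_sum]
    rw [sum_comm]
    refine sum_congr rfl fun s _ => ?_
    obtain ⟨l, hl⟩ : ∃ l, loops G s = l + 1 := ⟨loops G s - 1, by have := hL s; omega⟩
    rw [hl, Nat.add_sub_cancel, Int.toNat_natCast, weight_sub, ← mul_assoc, mul_sum]
    refine sum_congr rfl fun c _ => ?_
    rw [pow_succ]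
    ring
  rw [h, h3]
  have h4 : ∀ c, sgn (w c) * ∑ s : Fin N → Bool, (-2 : ℤ) ^ loops G s * gval s c = 0 := by
    intro c
    rw [sum_one G c, mul_zero]
  rw [sum_congr rfl (fun c _ => h4 c), sum_const_zero, mul_zero]

end Pool.Agent.H239.CS
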