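import Pool.Agent.H832R2.JR.Moment

set_option autoImplicit false

/-!
# The number of curves of a state and the nullity of the interlacement matrix over `𝔽₂`
-/

namespace Pool.Agent.H239.CS

open Finset Function Pool.Agent.H832R2.JR

variable {N : ℕ}

/-- a Boolean as an element of `𝔽₂` -/
def bz (b : Bool) : ZMod 2 := if b then 1 else 0

theorem bz_not (b : Bool) : bz (!b) = bz b + 1 := by cases b <;> decide

theorem bz_inj {a b : Bool} (h : bz a = bz b) : a = b := by
  revert h; cases a <;> cases b <;> decide

theorem two_zero (x : ZMod 2) : x + x = 0 := by revert x; decide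

open Classical in
/-- the left side of the equation of the crossing `c` -/
noncomputable def eqn (G : GaussWord N) (s : Fin N → Bool) (z : Fin N → ZMod 2) (c : Fin N) :
    ZMod 2 :=
  ∑ i, (if Crosses G i c then z i else 0) + (if s c then 0 else z c)

open Classical in
/-- the kernel of the interlacement matrix of the chords in `R` (with diagonal entries one for the
unoriented smoothings) -/
noncomputable def K (G : GaussWord N) (R : Finset (Fin N)) (s : Fin N → Bool) :
    Submodule (ZMod 2) (Fin N → ZMod 2) where
  carrier := {z | (∀ c, c ∉ R → z c = 0) ∧ ∀ c ∈ R, eqn G s z c = 0}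
  add_mem' := by
    rintro a b ⟨ha, ha'⟩ ⟨hb, hb'⟩
    refine ⟨fun c hc => by rw [Pi.add_apply, ha c hc, hb c hc, add_zero], fun c hc => ?_⟩
    have h1 := ha' c hc
    have h2 := hb' c hc
    unfold eqn at *
    have e1 : ∑ i, (if Crosses G i c then (a + b) i else 0) =
        ∑ i, (if Crosses G i c then a i else 0) + ∑ i, (if Crosses G i c then b i else 0) := by
      rw [← sum_add_distrib]
      refine sum_congr rfl fun i _ => ?_
      split_ifs <;> simp
    rw [e1, Pi.add_apply]
    by_cases hs : s c
    · simp only [hs, if_true] at *
      rw [add_zero] at *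
      rw [h1, h2, add_zero]
    · simp only [hs] at *
      simp only [Bool.false_eq_true, if_false] at *
      calc _ = (∑ i, (if Crosses G i c then a i else 0) + a c) +
            (∑ i, (if Crosses G i c then b i else 0) + b c) := by ring
        _ = 0 := by rw [h1, h2, add_zero]
  zero_mem' := by
    refine ⟨fun c _ => rfl, fun c _ => ?_⟩
    unfold eqn
    simp
  smul_mem' := by
    rintro r a ⟨ha, ha'⟩
    refine ⟨fun c hc => by rw [Pi.smul_apply, ha c hc, smul_zero], fun c hc => ?_⟩
    have h1 := ha' c hc
    unfold eqn at *
    have e1 : ∑ i, (if Crosses G i c then (r • a) i else 0) =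
        r * ∑ i, (if Crosses G i c then a i else 0) := by
      rw [mul_sum]
      refine sum_congr rfl fun i _ => ?_
      split_ifs <;> simp
    have e2 : (if s c then (0 : ZMod 2) else (r • a) c) = r * (if s c then 0 else a c) := by
      split_ifs <;> simp
    rw [e1, e2, ← mul_add, h1, mul_zero]

/-- the nullity -/
noncomputable def nu (G : GaussWord N) (R : Finset (Fin N)) (s : Fin N → Bool) : ℕ :=
  Module.finrank (ZMod 2) (K G R s)

theorem card_K (G : GaussWord N) (R : Finset (Fin N)) (s : Fin N → Bool) :
    Nat.card (K G R s) = 2 ^ nu G R s := by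
  unfold nu
  rw [Module.natCard_eq_pow_finrank (K := ZMod 2)]
  simp

/-- the colouring with jumps `z` -/
noncomputable def col (G : GaussWord N) (x : ZMod 2) (z : Fin N → ZMod 2) (h : Half N) : ZMod 2 :=
  x + ∑ i, z i * bz (chi G i h)

theorem col_arc (G : GaussWord N) (x : ZMod 2) (z : Fin N → ZMod 2) (h : Half N) :
    col G x z (arcFun G h) = col G x z h := by
  unfold col
  simp only [chi_arc]

theorem col_pass (G : GaussWord N) (x : ZMod 2) (z : Fin N → ZMod 2) (c : Fin N) (b e : Bool) :
    col G x z ((c, b), !e) = col G x z ((c, b), e) + z c := by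
  unfold col
  have h1 : ∀ i, z i * bz (chi G i ((c, b), !e)) =
      z i * bz (chi G i ((c, b), e)) + if i = c then z c else 0 := by
    intro i
    by_cases hi : i = c
    · subst hi
      rw [chi_self_pass, bz_not, if_pos rfl]
      ring
    · rw [chi_pass G i c (Ne.symm hi), if_neg hi, add_zero]
  rw [sum_congr rfl (fun i _ => h1 i), sum_add_distrib]
  simp
  ring

open Classical in
theorem col_other (G : GaussWord N) (x : ZMod 2) (z : Fin N → ZMod 2) (c : Fin N) (b e : Bool) :
    col G x z ((c, !b), e) = col G x z ((c, b), e) +
      (∑ i, (if Crosses G i c then z i else 0) + z c) := by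
  unfold col
  have h1 : ∀ i, z i * bz (chi G i ((c, !b), e)) =
      z i * bz (chi G i ((c, b), e)) + ((if Crosses G i c then z i else 0) +
        if i = c then z c else 0) := by
    intro i
    by_cases hi : i = c
    · subst hi
      have h2 : chi G i ((i, !b), e) = !chi G i ((i, b), e) := by
        have := chi_self_or G i b (!e)
        rw [Bool.not_not] at this
        rw [this, chi_self_pass]
      rw [h2, bz_not, if_pos rfl, if_neg (not_crosses_self G i)]
      ring
    · rw [if_neg hi, add_zero]
      have h3 := chi_other G i c (Ne.symm hi) b e
      by_cases hc : Crosses G i c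
      · rw [if_pos hc]
        have h4 : chi G i ((c, !b), e) = !chi G i ((c, b), e) := by
          have h5 : chi G i ((c, !b), e) ≠ chi G i ((c, b), e) := fun h => (h3.1 h) hc
          revert h5
          cases chi G i ((c, !b), e) <;> cases chi G i ((c, b), e) <;> simp
        rw [h4, bz_not]
        ring
      · rw [if_neg hc, h3.2 hc, add_zero]
  rw [sum_congr rfl (fun i _ => h1 i), sum_add_distrib, sum_add_distrib]
  simp
  ring

/-- the colourings of the curves of a state -/
def Inv (G : GaussWord N) (t : Fin N → Fin 3) (f : Half N → ZMod 2) : Prop :=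
  (∀ h, f (arcFun G h) = f h) ∧ ∀ h, f (smooth t h) = f h

theorem col_inv (G : GaussWord N) (s : Fin N → Bool) (x : ZMod 2) (z : Fin N → ZMod 2) :
    Inv G (tri s) (col G x z) ↔ ∀ c, eqn G s z c = 0 := by
  classical
  constructor
  · rintro ⟨_, h2⟩ c
    have h3 := h2 ((c, false), false)
    unfold smooth tri at h3
    unfold eqn
    by_cases hs : s c
    · simp only [hs, if_true] at h3 ⊢
      simp only [one_ne_zero, if_false, Bool.not_false] at h3
      have h4 := col_other G x z c false true
      have h5 := col_pass G x z c false false
      simp only [Bool.not_false] at h4 h5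
      rw [h4, h5] at h3
      have h6 := two_zero (z c)
      have h7 : (∑ i, (if Crosses G i c then z i else 0)) + (z c + z c) = 0 := by
        calc _ = (col G x z ((c, false), false) + z c +
              (∑ i, (if Crosses G i c then z i else 0) + z c)) -
              col G x z ((c, false), false) := by ring
          _ = 0 := by rw [h3, sub_self]
      rw [h6, add_zero] at h7
      rw [h7, add_zero]
    · simp only [hs, Bool.false_eq_true, if_false] at h3 ⊢
      have h8 : (2 : Fin 3) ≠ 0 := by decide
      have h9 : (2 : Fin 3) ≠ 1 := by decide
      simp only [h8, h9, if_false, Bool.not_false] at h3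
      have h4 := col_other G x z c false false
      simp only [Bool.not_false] at h4
      rw [h4] at h3
      calc _ = (col G x z ((c, false), false) +
              (∑ i, (if Crosses G i c then z i else 0) + z c)) -
              col G x z ((c, false), false) := by ring
          _ = 0 := by rw [h3, sub_self]
  · intro h
    refine ⟨col_arc G x z, ?_⟩
    rintro ⟨⟨c, b⟩, e⟩
    have h1 := h c
    unfold eqn at h1
    unfold smooth tri
    by_cases hs : s c
    · simp only [hs, if_true, one_ne_zero, if_false] at h1 ⊢
      rw [add_zero] at h1
      rw [col_other, col_pass, h1, zero_add, add_assoc, two_zero, add_zero]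
    · have h8 : (2 : Fin 3) ≠ 0 := by decide
      have h9 : (2 : Fin 3) ≠ 1 := by decide
      simp only [hs, Bool.false_eq_true, if_false, h8, h9] at h1 ⊢
      rw [col_other, h1, add_zero]

/-- a colouring without jumps is constant -/
theorem const_of_inv (G : GaussWord N) (i : Fin N) (f : Half N → ZMod 2)
    (h1 : ∀ h, f (arcFun G h) = f h) (h2 : ∀ p e, f (p, !e) = f (p, e)) (x y : Half N) :
    f x = f y := by
  have h3 := L_zero G i
  unfold L at h3
  rw [Nat.card_eq_one_iff_unique] at h3
  obtain ⟨h4, _⟩ := h3
  have h5 : ∀ a b, gen (arcFun G) (smooth fun _ => (0 : Fin 3)) a b → f a = f b := by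
    rintro a b (rfl | rfl)
    · exact (h1 a).symm
    · obtain ⟨p, e⟩ := a
      unfold smooth
      simp only [if_true]
      exact (h2 p e).symm
  exact congrArg (Quot.lift f h5) (Subsingleton.elim (Quot.mk _ x) (Quot.mk _ y))

theorem exists_col (G : GaussWord N) (i₀ : Fin N) (s : Fin N → Bool) (f : Half N → ZMod 2)
    (hf : Inv G (tri s) f) : ∃ x z, f = col G x z := by
  classical
  set z : Fin N → ZMod 2 := fun c => f ((c, false), true) + f ((c, false), false) with hz
  have hj : ∀ c b e, f ((c, b), !e) = f ((c, b), e) + z c := by
    have h0 : ∀ c, f ((c, false), true) = f ((c, false), false) + z c := by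
      intro c
      rw [hz]
      simp only
      have := two_zero (f ((c, false), false))
      calc f ((c, false), true) = f ((c, false), true) + 0 := by ring
        _ = f ((c, false), true) + (f ((c, false), false) + f ((c, false), false)) := by rw [this]
        _ = _ := by ring
    have h1 : ∀ c, f ((c, true), true) = f ((c, true), false) + z c := by
      intro c
      have h2 := hf.2 ((c, false), false)
      have h3 := hf.2 ((c, false), true)
      unfold smooth tri at h2 h3
      by_cases hs : s c
      · simp only [hs, if_true, one_ne_zero, if_false, Bool.not_false, Bool.not_true] at h2 h3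
        rw [h2, h3, h0, add_assoc, two_zero, add_zero]
      · have h8 : (2 : Fin 3) ≠ 0 := by decide
        have h9 : (2 : Fin 3) ≠ 1 := by decide
        simp only [hs, Bool.false_eq_true, if_false, h8, h9, Bool.not_false] at h2 h3
        rw [h2, h3, h0]
    intro c b e
    have h3 : f ((c, b), true) = f ((c, b), false) + z c := by
      cases b
      · exact h0 c
      · exact h1 c
    cases e
    · exact h3
    · rw [Bool.not_true, h3, add_assoc, two_zero, add_zero]
  set g : Half N → ZMod 2 := fun h => f h + col G 0 z h with hg
  have hg1 : ∀ h, g (arcFun G h) = g h := by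
    intro h
    rw [hg]
    simp only
    rw [hf.1, col_arc]
  have hg2 : ∀ p e, g (p, !e) = g (p, e) := by
    rintro ⟨c, b⟩ e
    rw [hg]
    simp only
    rw [hj, col_pass]
    have := two_zero (z c)
    calc _ = f ((c, b), e) + col G 0 z ((c, b), e) + (z c + z c) := by ring
      _ = _ := by rw [this, add_zero]
  refine ⟨g ((i₀, false), false), z, ?_⟩
  funext h
  have h4 := const_of_inv G i₀ g hg1 hg2 ((i₀, false), false) h
  rw [h4, hg]
  unfold col
  simp only
  rw [zero_add, add_assoc, two_zero, add_zero]

theorem nullity (G : GaussWord N) (s : Fin N → Bool) : loops G s - 1 = nu G univ s := by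
  classical
  rcases Nat.eq_zero_or_pos N with rfl | hN
  · have h1 : loops G s = 0 := by
      unfold loops
      have : IsEmpty (Quot (Joined G s)) := ⟨fun q => by
        induction q using Quot.ind with
        | _ x => exact x.1.1.elim0⟩
      exact Nat.card_of_isEmpty
    have h2 : nu G univ s = 0 := by
      unfold nu
      rw [Module.finrank_zero_iff]
      constructor
      rintro ⟨a, _⟩ ⟨b, _⟩
      apply Subtype.ext
      funext c
      exact c.elim0
    rw [h1, h2]
  · set i₀ : Fin N := ⟨0, hN⟩
    have hfin : Finite (Quot (gen (arcFun G) (smooth (tri s)))) := Quot.finite _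
    -- invariant colourings as functions on the curves
    have e1 : {f : Half N → ZMod 2 // Inv G (tri s) f} ≃
        (Quot (gen (arcFun G) (smooth (tri s))) → ZMod 2) :=
      { toFun := fun f => Quot.lift f.1 (by
          rintro a b (rfl | rfl)
          · exact (f.2.1 a).symm
          · exact (f.2.2 a).symm)
        invFun := fun q => ⟨fun h => q (Quot.mk _ h),
          fun h => congrArg q (Quot.sound (r := gen (arcFun G) (smooth (tri s))) (a := h)
            (b := arcFun G h) (Or.inl rfl)).symm,
          fun h => congrArg q (Quot.sound (r := gen (arcFun G) (smooth (tri s))) (a := h)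
            (b := smooth (tri s) h) (Or.inr rfl)).symm⟩
        left_inv := fun f => rfl
        right_inv := fun q => by
          funext x
          induction x using Quot.ind
          rfl }
    have e2 : (ZMod 2 × K G univ s) ≃ {f : Half N → ZMod 2 // Inv G (tri s) f} := by
      refine Equiv.ofBijective (fun p => ⟨col G p.1 p.2.1, (col_inv G s _ _).2
        (fun c => p.2.2.2 c (mem_univ c))⟩) ⟨?_, ?_⟩
      · rintro ⟨x, z, hz⟩ ⟨y, w, hw⟩ h
        have h1 : col G x z = col G y w := congrArg Subtype.val h
        have h2 : z = w := by
          funext c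
          have h3 := col_pass G x z c false false
          have h4 := col_pass G y w c false false
          rw [h1] at h3
          rw [h3] at h4
          exact add_left_cancel h4
        subst h2
        have h5 : x = y := by
          have h6 := congrFun h1 ((i₀, false), false)
          unfold col at h6
          exact add_right_cancel h6
        subst h5
        rfl
      · rintro ⟨f, hf⟩
        obtain ⟨x, z, rfl⟩ := exists_col G i₀ s f hf
        exact ⟨(x, ⟨z, ⟨fun c hc => absurd (mem_univ c) hc,
          fun c _ => (col_inv G s x z).1 hf c⟩⟩), rfl⟩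
    have h1 : Nat.card (ZMod 2 × K G univ s) = 2 ^ (nu G univ s + 1) := by
      rw [Nat.card_prod, card_K, pow_succ, mul_comm]
      congr 1
      simp
    have h2 : Nat.card (Quot (gen (arcFun G) (smooth (tri s))) → ZMod 2) = 2 ^ loops G s := by
      rw [Nat.card_fun, loops_eq]
      unfold L
      congr 1
      simp
    rw [Nat.card_congr (e2.trans e1), h2] at h1
    have h3 := Nat.pow_right_injective (le_refl 2) h1
    omega

end Pool.Agent.H239.CS
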