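import Pool.Agent.W642.RS.Qlo
import Pool.Agent.H239.CS.Moments

set_option autoImplicit false

/-!
# Changing only some of the crossings: the quadratic Littlewood-Offord inequality and the quarter bound
-/

namespace Pool.Agent.H239.CS

open Finset Function Pool.Agent.H832R2.JR LaurentPolynomial

variable {N : ℕ}

/-- the signs `v` at the crossings with property `p` and the signs `w₀` at the other crossings -/
def mix (p : Fin N → Prop) [DecidablePred p] (v w₀ : Fin N → Bool) : Fin N → Bool :=
  fun i => if p i then v i else w₀ i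

theorem sgn_not (b : Bool) : sgn (!b) = - sgn b := by cases b <;> simp [sgn]

theorem Q_not (A : Fin N → Fin N → ℤ) (w : Fin N → Bool) : Q A (fun i => !w i) = Q A w := by
  unfold Q
  refine sum_congr rfl fun i _ => sum_congr rfl fun j _ => ?_
  rw [sgn_not, sgn_not]
  ring

/-- the linear part -/
noncomputable def lin (A : Fin N → Fin N → ℤ) (p : Fin N → Prop) [DecidablePred p]
    (w₀ : Fin N → Bool) (i : Fin N) : ℤ :=
  if p i then ∑ j, (if p j then 0 else A i j * sgn (w₀ j)) else 0

/-- the matrix with an additional variable in front -/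
noncomputable def hom (A : Fin N → Fin N → ℤ) (p : Fin N → Prop) [DecidablePred p]
    (w₀ : Fin N → Bool) : Fin (N + 1) → Fin (N + 1) → ℤ :=
  Fin.cons (Fin.cons 0 (lin A p w₀))
    (fun i => Fin.cons (lin A p w₀ i) (fun j => if p i ∧ p j then A i j else 0))

theorem hom_symm (A : Fin N → Fin N → ℤ) (hA : ∀ i j, A i j = A j i) (p : Fin N → Prop)
    [DecidablePred p] (w₀ : Fin N → Bool) (i j : Fin (N + 1)) :
    hom A p w₀ i j = hom A p w₀ j i := by
  unfold hom
  refine Fin.cases ?_ (fun i => ?_) i <;> refine Fin.cases ?_ (fun j => ?_) j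
  · rfl
  · simp
  · simp
  · simp only [Fin.cons_succ, and_comm (a := p i), hA i j]

theorem Q_hom (A : Fin N → Fin N → ℤ) (hA : ∀ i j, A i j = A j i) (p : Fin N → Prop)
    [DecidablePred p] (w₀ x : Fin N → Bool) :
    Q A (mix p x w₀) = Q (hom A p w₀) (Fin.cons true x) +
      ∑ i, ∑ j, if p i ∨ p j then 0 else A i j * (sgn (w₀ i) * sgn (w₀ j)) := by
  have h1 : Q (hom A p w₀) (Fin.cons true x : Fin (N + 1) → Bool) =
      2 * ∑ i, lin A p w₀ i * sgn (x i) +
        ∑ i, ∑ j, (if p i ∧ p j then A i j else 0) * (sgn (x i) * sgn (x j)) := by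
    unfold Q
    rw [Fin.sum_univ_succ, Fin.sum_univ_succ]
    have h2 : ∀ i : Fin N, ∑ j : Fin (N + 1), hom A p w₀ i.succ j *
        (sgn ((Fin.cons true x : Fin (N + 1) → Bool) i.succ) *
          sgn ((Fin.cons true x : Fin (N + 1) → Bool) j)) =
        lin A p w₀ i * sgn (x i) +
          ∑ j, (if p i ∧ p j then A i j else 0) * (sgn (x i) * sgn (x j)) := by
      intro i
      rw [Fin.sum_univ_succ]
      unfold hom
      simp only [Fin.cons_succ, Fin.cons_zero]
      rw [show sgn true = 1 by rfl, mul_one]
    rw [sum_congr rfl (fun i _ => h2 i), sum_add_distrib]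
    unfold hom
    simp only [Fin.cons_succ, Fin.cons_zero]
    rw [show sgn true = 1 by rfl]
    simp only [zero_mul, one_mul, zero_add]
    ring
  have h3 : ∀ i j, A i j * (sgn (mix p x w₀ i) * sgn (mix p x w₀ j)) =
      (if p i ∧ p j then A i j else 0) * (sgn (x i) * sgn (x j)) +
      (if p i then (if p j then 0 else A i j * sgn (w₀ j)) * sgn (x i) else 0) +
      (if p j then (if p i then 0 else A j i * sgn (w₀ i)) * sgn (x j) else 0) +
      (if p i ∨ p j then 0 else A i j * (sgn (w₀ i) * sgn (w₀ j))) := by
    intro i j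
    rw [hA j i]
    unfold mix
    by_cases hi : p i <;> by_cases hj : p j <;> simp [hi, hj] <;> ring
  have h4 : ∀ i, ∑ j, (if p i then (if p j then 0 else A i j * sgn (w₀ j)) * sgn (x i) else 0) =
      lin A p w₀ i * sgn (x i) := by
    intro i
    unfold lin
    by_cases hi : p i
    · simp only [hi, if_true]
      rw [sum_mul]
    · simp [hi]
  have h5 : ∑ i, ∑ j, (if p i then (if p j then 0 else A i j * sgn (w₀ j)) * sgn (x i) else 0) =
      ∑ i, lin A p w₀ i * sgn (x i) := sum_congr rfl fun i _ => h4 i
  have h6 : ∑ i, ∑ j, (if p j then (if p i then 0 else A j i * sgn (w₀ i)) * sgn (x j) else 0) =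
      ∑ i, lin A p w₀ i * sgn (x i) := by
    rw [sum_comm]
    exact sum_congr rfl fun i _ => h4 i
  rw [h1]
  unfold Q
  simp only [h3, sum_add_distrib]
  rw [h5, h6]
  ring

/-- the relative quadratic Littlewood-Offord inequality -/
theorem qlo_rel (A : Fin N → Fin N → ℤ) (hA : ∀ i j, A i j = A j i) (p : Fin N → Prop)
    [DecidablePred p] (w₀ : Fin N → Bool) {m : ℕ} (u v : Fin m → Fin N)
    (huv : Injective (Sum.elim u v)) (hd : ∀ k, A (u k) (v k) ≠ 0)
    (hp : ∀ k, p (u k) ∧ p (v k)) (c : ℤ) :
    m * (univ.filter fun x => Q A (mix p x w₀) = c).card ^ 4 ≤ 32 * (2 ^ N) ^ 4 := by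
  set K' : ℤ := ∑ i, ∑ j, if p i ∨ p j then 0 else A i j * (sgn (w₀ i) * sgn (w₀ j)) with hK'
  have h1 := Pool.Agent.W642.RS.qlo (N + 1) m (hom A p w₀) (hom_symm A hA p w₀)
    (fun k => (u k).succ) (fun k => (v k).succ) (by
      have e : Sum.elim (fun k => (u k).succ) (fun k => (v k).succ) =
          Fin.succ ∘ Sum.elim u v := by
        funext x
        rcases x with x | x <;> rfl
      rw [e]
      exact (Fin.succ_injective N).comp huv) (by
      intro k
      unfold hom
      simp only [Fin.cons_succ]
      rw [if_pos (hp k)]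
      exact hd k) (c - K')
  set S := univ.filter fun x => Q A (mix p x w₀) = c with hS
  set S' := univ.filter fun w : Fin (N + 1) → Bool => Q (hom A p w₀) w = c - K' with hS'
  have h2 : 2 * S.card ≤ S'.card := by
    have h3 : ((univ : Finset Bool) ×ˢ S).card ≤ S'.card := by
      refine card_le_card_of_injOn (fun bx => Fin.cons bx.1
        (fun i => if bx.1 then bx.2 i else !bx.2 i)) ?_ ?_
      · rintro ⟨b, x⟩ hx
        rw [mem_coe, mem_product] at hx
        have hx2 := hx.2
        simp only [hS, mem_filter, mem_univ, true_and] at hx2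
        rw [Q_hom A hA] at hx2
        rw [mem_coe, hS', mem_filter]
        refine ⟨mem_univ _, ?_⟩
        have h4 : Q (hom A p w₀) (Fin.cons true x) = c - K' := by
          rw [hK']
          linarith
        cases b
        · have e : (Fin.cons false (fun i => if false = true then x i else !x i) :
              Fin (N + 1) → Bool) = fun i => !((Fin.cons true x : Fin (N + 1) → Bool) i) := by
            funext i
            refine Fin.cases ?_ (fun i => ?_) i
            · simp
            · simp
          simp only
          rw [e, Q_not]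
          exact h4
        · simpa using h4
      · rintro ⟨b, x⟩ _ ⟨b', x'⟩ _ h
        simp only at h
        have h5 := congrFun h 0
        simp only [Fin.cons_zero] at h5
        subst h5
        refine Prod.ext rfl ?_
        funext i
        have h6 := congrFun h i.succ
        simp only [Fin.cons_succ] at h6
        cases b
        · simpa using h6
        · simpa using h6
    rw [card_product, card_univ, Fintype.card_bool] at h3
    exact h3
  have h7 : m * (2 * S.card) ^ 4 ≤ 32 * (2 ^ (N + 1)) ^ 4 :=
    (Nat.mul_le_mul_left _ (Nat.pow_le_pow_left h2 4)).trans h1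
  have h8 : m * (2 * S.card) ^ 4 = 16 * (m * S.card ^ 4) := by ring
  have h9 : 32 * (2 ^ (N + 1)) ^ 4 = 16 * (32 * (2 ^ N) ^ 4) := by ring
  rw [h8, h9] at h7
  omega

/-- the symmetric bilinear form -/
def bil (A : Fin N → Fin N → ℤ) (x y : Fin N → ℤ) : ℤ := ∑ i, ∑ j, A i j * (x i * y j)

theorem bil_diff (A : Fin N → Fin N → ℤ) (hA : ∀ i j, A i j = A j i) (x y : Fin N → ℤ) :
    bil A x x - bil A y y = bil A (x - y) (x + y) := by
  have h1 : ∑ i, ∑ j, A i j * (y i * x j) = ∑ i, ∑ j, A i j * (x i * y j) := by
    rw [sum_comm]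
    refine sum_congr rfl fun i _ => sum_congr rfl fun j _ => ?_
    rw [hA j i]
    ring
  have h2 : bil A (x - y) (x + y) = bil A x x - bil A y y +
      (∑ i, ∑ j, A i j * (x i * y j) - ∑ i, ∑ j, A i j * (y i * x j)) := by
    unfold bil
    rw [← sum_sub_distrib, ← sum_sub_distrib, ← sum_add_distrib]
    refine sum_congr rfl fun i _ => ?_
    rw [← sum_sub_distrib, ← sum_sub_distrib, ← sum_add_distrib]
    refine sum_congr rfl fun j _ => ?_
    simp only [Pi.sub_apply, Pi.add_apply]
    ring
  rw [h2, h1, sub_self, add_zero]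

theorem bil_sub (A : Fin N → Fin N → ℤ) (x y z : Fin N → ℤ) :
    bil A x y - bil A x z = bil A x (y - z) := by
  unfold bil
  rw [← sum_sub_distrib]
  refine sum_congr rfl fun i _ => ?_
  rw [← sum_sub_distrib]
  refine sum_congr rfl fun j _ => ?_
  simp only [Pi.sub_apply]
  ring

/-- two signs changed -/
def up (x : Fin N → Bool) (i j : Fin N) (a b : Bool) : Fin N → Bool := update (update x i a) j b

theorem second_diff (A : Fin N → Fin N → ℤ) (hA : ∀ i j, A i j = A j i) (p : Fin N → Prop)
    [DecidablePred p] (w₀ x : Fin N → Bool) {i j : Fin N} (hij : i ≠ j) (hi : p i) (hj : p j) :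
    Q A (mix p (up x i j true true) w₀) - Q A (mix p (up x i j true false) w₀) -
      (Q A (mix p (up x i j false true) w₀) - Q A (mix p (up x i j false false) w₀)) =
      8 * A i j := by
  set s : Bool → Bool → Fin N → ℤ := fun a b k => sgn (mix p (up x i j a b) w₀ k) with hs
  have hQ : ∀ a b, Q A (mix p (up x i j a b) w₀) = bil A (s a b) (s a b) := fun a b => rfl
  have h1 : ∀ a, s a true - s a false = fun k => if k = j then 2 else 0 := by
    intro a
    funext k
    simp only [hs, Pi.sub_apply, mix, up]
    by_cases hk : k = j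
    · subst hk
      simp [hj, sgn]
    · simp [update_of_ne hk, hk]
  have h2 : ∀ b, s true b - s false b = fun k => if k = i then 2 else 0 := by
    intro b
    funext k
    simp only [hs, Pi.sub_apply, mix, up]
    by_cases hk : k = j
    · subst hk
      simp [hij.symm]
    · by_cases hki : k = i
      · subst hki
        simp [update_of_ne hk, hi, sgn]
      · simp [update_of_ne hk, update_of_ne hki, hki]
  rw [hQ, hQ, hQ, hQ, bil_diff A hA, bil_diff A hA, h1, h1, bil_sub]
  have h3 : (s true true + s true false) - (s false true + s false false) =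
      fun k => if k = i then 4 else 0 := by
    have e1 := h2 true
    have e2 := h2 false
    funext k
    have e1' := congrFun e1 k
    have e2' := congrFun e2 k
    simp only [Pi.sub_apply, Pi.add_apply] at e1' e2' ⊢
    split_ifs at * <;> linarith
  rw [h3]
  unfold bil
  rw [sum_eq_single j]
  · rw [sum_eq_single i]
    · simp only [if_true]
      rw [hA j i]
      ring
    · intro b _ hb
      simp [hb]
    · intro h; exact absurd (mem_univ i) h
  · intro b _ hb
    simp [hb]
  · intro h; exact absurd (mem_univ j) h

/-- the quarter bound -/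
theorem quarter (A : Fin N → Fin N → ℤ) (hA : ∀ i j, A i j = A j i) (p : Fin N → Prop)
    [DecidablePred p] (w₀ : Fin N → Bool) {i j : Fin N} (hij : i ≠ j) (hi : p i) (hj : p j)
    (hne : A i j ≠ 0) (c : ℤ) :
    4 * (univ.filter fun x => Q A (mix p x w₀) = c).card ≤ 3 * 2 ^ N := by
  classical
  have h1 : ∀ x : Fin N → Bool, ∃ ab : Bool × Bool,
      Q A (mix p (up x i j ab.1 ab.2) w₀) ≠ c := by
    intro x
    by_contra hcon
    push Not at hcon
    have h2 := second_diff A hA p w₀ x hij hi hj
    rw [hcon (true, true), hcon (true, false), hcon (false, true), hcon (false, false)] at h2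
    apply hne
    linarith
  choose g hg using h1
  have h3 : (univ : Finset (Fin N → Bool)).card ≤
      4 * (univ.filter fun x => ¬ Q A (mix p x w₀) = c).card := by
    refine card_le_mul_card_image_of_maps_to (f := fun x => up x i j (g x).1 (g x).2) ?_ 4 ?_
    · intro x _
      exact mem_filter.2 ⟨mem_univ _, hg x⟩
    · intro y _
      have h4 : (univ.filter fun x => up x i j (g x).1 (g x).2 = y) ⊆
          (univ : Finset (Bool × Bool)).image (fun ab => up y i j ab.1 ab.2) := by
        intro x hx
        rw [mem_filter] at hx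
        rw [mem_image]
        refine ⟨(x i, x j), mem_univ _, ?_⟩
        rw [← hx.2]
        funext k
        unfold up
        by_cases hk : k = j
        · subst hk; simp
        · by_cases hki : k = i
          · subst hki; simp [update_of_ne hk]
          · simp [update_of_ne hk, update_of_ne hki]
      refine (card_le_card h4).trans (card_image_le.trans ?_)
      simp
  have h5 := card_filter_add_card_filter_not (s := (univ : Finset (Fin N → Bool)))
    (fun x => Q A (mix p x w₀) = c)
  have h6 : (univ : Finset (Fin N → Bool)).card = 2 ^ N := by simp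
  rw [h6] at h3 h5
  omega

end Pool.Agent.H239.CS
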