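import Pool.Agent.H239.CS.Class

set_option autoImplicit false

/-!
# The width of a product of Laurent polynomials
-/

namespace Pool.Agent.H239.CS

open Finset Function Pool.Agent.H832R2.JR LaurentPolynomial Polynomial

variable {N : ℕ}

/-- `f` is supported in an interval of length `s`: `f = T^n g(T)` with a polynomial `g` of degree
at most `s` -/
def Width (s : ℕ) (f : ℤ[T;T⁻¹]) : Prop :=
  ∃ (n : ℤ) (g : Polynomial ℤ), g.natDegree ≤ s ∧ f = toLaurent g * LaurentPolynomial.T n

theorem normal (f : ℤ[T;T⁻¹]) (hf : f ≠ 0) : ∃ (n : ℤ) (g : Polynomial ℤ), g.coeff 0 ≠ 0 ∧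
    f = toLaurent g * LaurentPolynomial.T n := by
  obtain ⟨m, f', hf'⟩ := LaurentPolynomial.exists_T_pow f
  have h1 : f' ≠ 0 := by
    rintro rfl
    rw [map_zero] at hf'
    apply hf
    have h2 : f = f * LaurentPolynomial.T (m : ℤ) * LaurentPolynomial.T (-(m : ℤ)) := by
      rw [mul_assoc, ← T_add, add_neg_cancel, T_zero, mul_one]
    rw [h2, ← hf', zero_mul]
  obtain ⟨q, hq, hq'⟩ := exists_eq_pow_rootMultiplicity_mul_and_not_dvd f' h1 0
  rw [map_zero, sub_zero] at hq hq'
  generalize rootMultiplicity 0 f' = k at hq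
  refine ⟨(k : ℤ) - m, q, fun h => hq' (X_dvd_iff.2 h), ?_⟩
  have h2 : f = f * LaurentPolynomial.T (m : ℤ) * LaurentPolynomial.T (-(m : ℤ)) := by
    rw [mul_assoc, ← T_add, add_neg_cancel, T_zero, mul_one]
  rw [h2, ← hf', hq, map_mul, toLaurent_X_pow, mul_comm (LaurentPolynomial.T _), mul_assoc, ← T_add,
    sub_eq_add_neg]

theorem degree_le (G g : Polynomial ℤ) (m n : ℤ) (hG : G.coeff 0 ≠ 0)
    (h : toLaurent G * LaurentPolynomial.T m = toLaurent g * LaurentPolynomial.T n) :
    G.natDegree ≤ g.natDegree := by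
  rcases le_total m n with hmn | hmn
  · obtain ⟨k, hk⟩ := Int.eq_ofNat_of_zero_le (sub_nonneg.2 hmn)
    have h1 : G = g * X ^ k := by
      apply toLaurent_injective
      rw [map_mul, toLaurent_X_pow]
      have h2 : toLaurent G = toLaurent G * LaurentPolynomial.T m * LaurentPolynomial.T (-m) := by
        rw [mul_assoc, ← T_add, add_neg_cancel, T_zero, mul_one]
      rw [h2, h, mul_assoc, ← T_add, ← sub_eq_add_neg, hk]
    rcases Nat.eq_zero_or_pos k with rfl | hk0
    · rw [h1, pow_zero, mul_one]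
    · exfalso
      apply hG
      rw [h1, coeff_mul_X_pow', if_neg (by omega)]
  · obtain ⟨k, hk⟩ := Int.eq_ofNat_of_zero_le (sub_nonneg.2 hmn)
    have h1 : g = G * X ^ k := by
      apply toLaurent_injective
      rw [map_mul, toLaurent_X_pow]
      have h2 : toLaurent g = toLaurent g * LaurentPolynomial.T n * LaurentPolynomial.T (-n) := by
        rw [mul_assoc, ← T_add, add_neg_cancel, T_zero, mul_one]
      rw [h2, ← h, mul_assoc, ← T_add, ← sub_eq_add_neg, hk]
    have hG0 : G ≠ 0 := by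
      rintro rfl
      exact hG (coeff_zero 0)
    rw [h1, natDegree_mul_X_pow k hG0]
    omega

/-- a constant times a power of `T` which divides an element with value one at one is a unit -/
theorem const_unit (F r : ℤ[T;T⁻¹]) (g : Polynomial ℤ) (n : ℤ) (hg : g.natDegree = 0)
    (hF : F = toLaurent g * LaurentPolynomial.T n * r) (h1 : rho F 0 0 = 1) :
    IsUnit (toLaurent g * LaurentPolynomial.T n) := by
  rw [natDegree_eq_zero] at hg
  obtain ⟨c, rfl⟩ := hg
  have e1 : F = c • (LaurentPolynomial.T n * r) := by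
    rw [hF, toLaurent_C, LaurentPolynomial.smul_eq_C_mul, mul_assoc]
  rw [e1, map_smul, Matrix.smul_apply, smul_eq_mul] at h1
  have h2 : IsUnit c := IsUnit.of_mul_eq_one _ h1
  refine IsUnit.mul ?_ (isUnit_T n)
  exact (h2.map (Polynomial.C : ℤ →+* Polynomial ℤ)).map
    (toLaurent : Polynomial ℤ →+* ℤ[T;T⁻¹])

open Classical in
/-- the number of the factors which are not units is at most the width -/
theorem nonunits_le (C : Finset ℕ) (f : ℕ → ℤ[T;T⁻¹]) (F r : ℤ[T;T⁻¹]) (s : ℕ)
    (hF : F = (∏ a ∈ C, f a) * r) (h1 : rho F 0 0 = 1) (hs : Width s F) :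
    (C.filter fun a => ¬ IsUnit (f a)).card ≤ s := by
  have hF0 : F ≠ 0 := by
    rintro rfl
    rw [map_zero, Matrix.zero_apply] at h1
    exact zero_ne_one h1
  have hr0 : r ≠ 0 := by
    rintro rfl
    exact hF0 (by rw [hF, mul_zero])
  have hf0 : ∀ a ∈ C, f a ≠ 0 := by
    intro a ha h
    exact hF0 (by rw [hF, prod_eq_zero ha h, zero_mul])
  have hnf : ∀ a, ∃ (n : ℤ) (g : Polynomial ℤ), a ∈ C → (g.coeff 0 ≠ 0 ∧
      f a = toLaurent g * LaurentPolynomial.T n) := by
    intro a
    by_cases ha : a ∈ C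
    · obtain ⟨n, g, h⟩ := normal (f a) (hf0 a ha)
      exact ⟨n, g, fun _ => h⟩
    · exact ⟨0, 0, fun h => absurd h ha⟩
  choose n g hg using hnf
  obtain ⟨nr, gr, hgr, hr⟩ := normal r hr0
  have e1 : ∏ a ∈ C, f a = toLaurent (∏ a ∈ C, g a) * LaurentPolynomial.T (∑ a ∈ C, n a) := by
    rw [T_sum, map_prod, ← prod_mul_distrib]
    exact prod_congr rfl fun a ha => (hg a ha).2
  have e2 : F = toLaurent ((∏ a ∈ C, g a) * gr) * LaurentPolynomial.T ((∑ a ∈ C, n a) + nr) := by
    rw [hF, e1, hr, map_mul, T_add]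
    ring
  obtain ⟨m, G, hG, hFG⟩ := hs
  have g0 : ∀ a ∈ C, g a ≠ 0 := by
    intro a ha h
    apply (hg a ha).1
    rw [h, coeff_zero]
  have gr0 : gr ≠ 0 := by
    rintro rfl
    exact hgr (coeff_zero 0)
  have h2 : ((∏ a ∈ C, g a) * gr).natDegree ≤ G.natDegree := by
    refine degree_le _ _ ((∑ a ∈ C, n a) + nr) m ?_ (by rw [← e2, hFG])
    rw [mul_coeff_zero, coeff_zero_prod]
    exact mul_ne_zero (prod_ne_zero_iff.2 fun a ha => (hg a ha).1) hgr
  rw [natDegree_mul (prod_ne_zero_iff.2 g0) gr0, natDegree_prod _ _ g0] at h2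
  have h3 : (C.filter fun a => ¬ IsUnit (f a)).card ≤ ∑ a ∈ C, (g a).natDegree := by
    rw [card_eq_sum_ones, sum_filter]
    refine sum_le_sum fun a ha => ?_
    by_cases h : IsUnit (f a)
    · rw [if_neg (not_not.2 h)]
      exact Nat.zero_le _
    · rw [if_pos h, Nat.one_le_iff_ne_zero]
      intro h0
      apply h
      rw [(hg a ha).2]
      refine const_unit F ((∏ b ∈ C.erase a, f b) * r) (g a) (n a) h0 ?_ h1
      rw [hF, ← mul_prod_erase C f ha, (hg a ha).2]
      ring
  omega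

end Pool.Agent.H239.CS
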